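import Mathlib

set_option autoImplicit false

namespace Pool.Agent.P.MP_312c66_co

open Finset
open scoped Classical

/-- Greedy choice of a set with a large common neighbourhood. -/
lemma greedy {X Y : Type} [Fintype X] (E : X → Y → Prop) (δ : ℝ) (hδ0 : 0 < δ) (hδ1 : δ ≤ 1)
    (Y' : Finset Y)
    (hdeg : ∀ y ∈ Y', 2 * δ * (Fintype.card X : ℝ) ≤ ((univ.filter (fun x => E x y)).card : ℝ))
    (t : ℕ) (ht : (t : ℝ) ≤ δ * (Fintype.card X : ℝ)) :
    ∀ j : ℕ, j ≤ t → ∃ A : Finset X, A.card = j ∧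
      δ ^ j * (Y'.card : ℝ) ≤ ((Y'.filter (fun y => ∀ x ∈ A, E x y)).card : ℝ) := by
  intro j
  induction j with
  | zero => intro _; exact ⟨∅, rfl, by simp⟩
  | succ j ih =>
    intro hj
    obtain ⟨A, hA, hcard⟩ := ih (by omega)
    set Z := Y'.filter (fun y => ∀ x ∈ A, E x y) with hZ
    have hjt : ((j : ℝ) + 1) ≤ t := by exact_mod_cast hj
    have hX : (0 : ℝ) ≤ (Fintype.card X : ℝ) := by positivity
    have hjX : ((j : ℝ) + 1) ≤ (Fintype.card X : ℝ) := by nlinarith
    have hne : (univ \ A).Nonempty := by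
      rw [← card_pos, card_sdiff_of_subset (subset_univ _), card_univ, hA]
      have : j + 1 ≤ Fintype.card X := by exact_mod_cast hjX
      omega
    have hsum : ∑ x ∈ univ \ A, ((Z.filter (fun y => E x y)).card : ℝ)
        = ∑ y ∈ Z, (((univ \ A).filter (fun x => E x y)).card : ℝ) := by
      have := sum_card_bipartiteAbove_eq_sum_card_bipartiteBelow (s := univ \ A) (t := Z) E
      simp only [bipartiteAbove, bipartiteBelow] at this
      exact_mod_cast this
    have hlow : ∀ y ∈ Z, δ * (Fintype.card X : ℝ) ≤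
        (((univ \ A).filter (fun x => E x y)).card : ℝ) := by
      intro y hy
      have hy' : y ∈ Y' := (mem_filter.mp hy).1
      have h1 := hdeg y hy'
      have h2 : (univ.filter (fun x => E x y)) ⊆ ((univ \ A).filter (fun x => E x y)) ∪ A := by
        intro x hx
        by_cases hxA : x ∈ A
        · exact mem_union_right _ hxA
        · apply mem_union_left
          simp only [mem_filter, mem_univ, true_and, mem_sdiff] at hx ⊢
          exact ⟨hxA, hx⟩
      have h3 := (card_le_card h2).trans (card_union_le _ _)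
      have h4 : ((univ.filter (fun x => E x y)).card : ℝ) ≤
          (((univ \ A).filter (fun x => E x y)).card : ℝ) + j := by
        rw [← hA]; exact_mod_cast h3
      linarith
    have hex : ∃ x ∈ univ \ A, δ * (Z.card : ℝ) ≤ ((Z.filter (fun y => E x y)).card : ℝ) := by
      apply exists_le_of_sum_le hne
      rw [hsum, sum_const, nsmul_eq_mul]
      calc ((univ \ A).card : ℝ) * (δ * (Z.card : ℝ))
          ≤ (Fintype.card X : ℝ) * (δ * (Z.card : ℝ)) := by
            gcongr
            exact card_le_univ _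
        _ = ∑ _y ∈ Z, δ * (Fintype.card X : ℝ) := by
            rw [sum_const, nsmul_eq_mul]; ring
        _ ≤ _ := sum_le_sum hlow
    obtain ⟨x, hx, hxZ⟩ := hex
    have hxA : x ∉ A := (mem_sdiff.mp hx).2
    refine ⟨insert x A, by rw [card_insert_of_notMem hxA, hA], ?_⟩
    have heq : Y'.filter (fun y => ∀ x' ∈ insert x A, E x' y) = Z.filter (fun y => E x y) := by
      ext y
      simp only [hZ, mem_filter, mem_insert, forall_eq_or_imp]
      tauto
    rw [heq]
    calc δ ^ (j + 1) * (Y'.card : ℝ) = δ * (δ ^ j * (Y'.card : ℝ)) := by ring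
      _ ≤ δ * (Z.card : ℝ) := by gcongr
      _ ≤ _ := hxZ

/-- One step of the box theorem. -/
lemma step {X Y : Type} [Fintype X] [Fintype Y] (E : X → Y → Prop) (p : ℝ) (hp0 : 0 < p)
    (hp1 : p ≤ 1)
    (hE : p * ((Fintype.card X : ℝ) * (Fintype.card Y : ℝ)) ≤
      ((univ.filter (fun z : X × Y => E z.1 z.2)).card : ℝ))
    (t : ℕ) (ht : (t : ℝ) ≤ p / 4 * (Fintype.card X : ℝ)) :
    ∃ A : Finset X, A.card = t ∧
      (p / 4) ^ (t + 1) * (Fintype.card Y : ℝ) ≤
        ((univ.filter (fun y => ∀ x ∈ A, E x y)).card : ℝ) := by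
  set Y' : Finset Y := univ.filter (fun y =>
    2 * (p / 4) * (Fintype.card X : ℝ) ≤ ((univ.filter (fun x => E x y)).card : ℝ)) with hY'
  obtain ⟨A, hA, hcard⟩ := greedy E (p / 4) (by positivity) (by linarith) Y'
    (fun y hy => (mem_filter.mp hy).2) t ht t le_rfl
  refine ⟨A, hA, ?_⟩
  have hsplit : ((univ.filter (fun z : X × Y => E z.1 z.2)).card : ℝ)
      = ∑ y : Y, ((univ.filter (fun x => E x y)).card : ℝ) := by
    simp only [card_filter]
    push_cast
    rw [Fintype.sum_prod_type_right]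
  have hbound : ∀ y : Y, ((univ.filter (fun x => E x y)).card : ℝ) ≤
      (if y ∈ Y' then (Fintype.card X : ℝ) else 0) + 2 * (p / 4) * (Fintype.card X : ℝ) := by
    intro y
    have hpos : 0 ≤ 2 * (p / 4) * (Fintype.card X : ℝ) := by positivity
    split_ifs with hy
    · have : ((univ.filter (fun x => E x y)).card : ℝ) ≤ (Fintype.card X : ℝ) := by
        exact_mod_cast card_le_univ _
      linarith
    · simp only [hY', mem_filter, mem_univ, true_and, not_le] at hy
      linarith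
  have hsum := sum_le_sum (s := univ) (fun y _ => hbound y)
  rw [← hsplit, sum_add_distrib, sum_ite_mem, univ_inter, sum_const, sum_const, nsmul_eq_mul,
    nsmul_eq_mul, card_univ] at hsum
  have hY'card : p / 4 * (Fintype.card Y : ℝ) ≤ (Y'.card : ℝ) := by
    rcases Nat.eq_zero_or_pos (Fintype.card X) with hX | hX
    · have : Y' = univ := by
        ext y
        simp [hY', hX]
      rw [this, card_univ]
      have : (0 : ℝ) ≤ (Fintype.card Y : ℝ) := by positivity
      nlinarith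
    · have hX' : (0 : ℝ) < (Fintype.card X : ℝ) := by exact_mod_cast hX
      have hYn : (0 : ℝ) ≤ (Fintype.card Y : ℝ) := by positivity
      have h1 : (p / 2 * (Fintype.card Y : ℝ)) * (Fintype.card X : ℝ) ≤
          (Y'.card : ℝ) * (Fintype.card X : ℝ) := by nlinarith
      have h2 := le_of_mul_le_mul_right h1 hX'
      nlinarith
  have hsub : ((Y'.filter (fun y => ∀ x ∈ A, E x y)).card : ℝ) ≤
      ((univ.filter (fun y => ∀ x ∈ A, E x y)).card : ℝ) := by
    exact_mod_cast card_le_card (filter_subset_filter _ (subset_univ _))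
  calc (p / 4) ^ (t + 1) * (Fintype.card Y : ℝ)
      = (p / 4) ^ t * (p / 4 * (Fintype.card Y : ℝ)) := by ring
    _ ≤ (p / 4) ^ t * (Y'.card : ℝ) := by gcongr
    _ ≤ _ := hcard.trans hsub

/-- The four-dimensional box theorem of Erdos, with explicit bounds. -/
lemma box {X : Type} [Fintype X] (E : X → X → X → X → Prop) (t m : ℕ)
    (hE : (1 / 2 : ℝ) ^ m * (Fintype.card X : ℝ) ^ 4 ≤
      ((univ.filter (fun z : X × X × X × X => E z.1 z.2.1 z.2.2.1 z.2.2.2)).card : ℝ))
    (ht : (t : ℝ) ≤ (1 / 2 : ℝ) ^ ((((m + 2) * (t + 1) + 2) * (t + 1) + 2) * (t + 1))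
      * (Fintype.card X : ℝ)) :
    ∃ A B C D : Finset X, A.card = t ∧ B.card = t ∧ C.card = t ∧ D.card = t ∧
      ∀ a ∈ A, ∀ b ∈ B, ∀ c ∈ C, ∀ d ∈ D, E a b c d := by
  have hq : ∀ a : ℕ, (1 / 2 : ℝ) ^ a / 4 = (1 / 2 : ℝ) ^ (a + 2) := by
    intro a; rw [pow_add]; ring
  have hle : ∀ a : ℕ, (1 / 2 : ℝ) ^ a ≤ 1 := fun a => pow_le_one₀ (by norm_num) (by norm_num)
  have e1 : m + 2 ≤ (m + 2) * (t + 1) + 2 := by nlinarith [Nat.zero_le m, Nat.zero_le t]
  have e2 : (m + 2) * (t + 1) + 2 ≤ ((m + 2) * (t + 1) + 2) * (t + 1) + 2 := by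
    nlinarith [Nat.zero_le ((m + 2) * (t + 1) + 2), Nat.zero_le t]
  have e3 : ((m + 2) * (t + 1) + 2) * (t + 1) + 2 ≤
      (((m + 2) * (t + 1) + 2) * (t + 1) + 2) * (t + 1) := Nat.le_mul_of_pos_right _ (by omega)
  have hmono : ∀ a : ℕ, a ≤ (((m + 2) * (t + 1) + 2) * (t + 1) + 2) * (t + 1) →
      (t : ℝ) ≤ (1 / 2 : ℝ) ^ a * (Fintype.card X : ℝ) := by
    intro a ha
    refine ht.trans (mul_le_mul_of_nonneg_right ?_ (by positivity))
    exact pow_le_pow_of_le_one (by norm_num) (by norm_num) ha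
  obtain ⟨A, hA, h1⟩ := step (X := X) (Y := X × X × X) (fun a y => E a y.1 y.2.1 y.2.2)
    ((1 / 2 : ℝ) ^ m) (by positivity) (hle _)
    (by simp only [Fintype.card_prod]; push_cast; convert hE using 2; ring) t
    (by rw [hq]; exact hmono _ (by omega))
  rw [hq, ← pow_mul] at h1
  obtain ⟨B, hB, h2⟩ := step (X := X) (Y := X × X) (fun b y => ∀ a ∈ A, E a b y.1 y.2)
    ((1 / 2 : ℝ) ^ ((m + 2) * (t + 1))) (by positivity) (hle _)
    (by simp only [Fintype.card_prod] at h1 ⊢; push_cast at h1 ⊢; convert h1 using 4) t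
    (by rw [hq]; exact hmono _ (by omega))
  rw [hq, ← pow_mul] at h2
  obtain ⟨C, hC, h3⟩ := step (X := X) (Y := X) (fun c d => ∀ b ∈ B, ∀ a ∈ A, E a b c d)
    ((1 / 2 : ℝ) ^ (((m + 2) * (t + 1) + 2) * (t + 1))) (by positivity) (hle _)
    (by simp only [Fintype.card_prod] at h2 ⊢; push_cast at h2 ⊢; convert h2 using 4) t
    (by rw [hq]; exact hmono _ e3)
  rw [hq, ← pow_mul] at h3
  have h4 := ht.trans h3
  obtain ⟨D, hD, hDc⟩ := exists_subset_card_eq (Nat.cast_le.mp h4)
  refine ⟨A, B, C, D, hA, hB, hC, hDc, ?_⟩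
  intro a ha b hb c hc d hd
  have h6 := hD hd
  simp only [mem_filter, mem_univ, true_and] at h6
  exact h6 c hc b hb a ha

end Pool.Agent.P.MP_312c66_co
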