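import Pool.Agent.P.MP_312c66_co.Box

/-! The box theorem in every dimension and the minimum degree form of the dichotomy. -/

namespace Pool.Agent.P.MP_312c66_co

open Finset
open scoped Classical

/-- The box theorem of Erdos in dimension `s + 1`, with explicit bounds. -/
lemma boxN {X : Type} [Fintype X] (t : ℕ) (ht1 : 1 ≤ t) (s : ℕ) :
    ∀ (E : (Fin (s + 1) → X) → Prop) (m : ℕ) (T : Finset (Fin (s + 1) → X)), (∀ z ∈ T, E z) →
      (1 / 2 : ℝ) ^ m * (Fintype.card X : ℝ) ^ (s + 1) ≤ (T.card : ℝ) →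
      (t : ℝ) ≤ (1 / 2 : ℝ) ^ ((m + 4) * (t + 1) ^ s) * (Fintype.card X : ℝ) →
      ∃ A : Fin (s + 1) → Finset X, (∀ i, (A i).card = t) ∧ ∀ z, (∀ i, z i ∈ A i) → E z := by
  have hmono : ∀ a b : ℕ, a ≤ b → (1 / 2 : ℝ) ^ b * (Fintype.card X : ℝ)
      ≤ (1 / 2 : ℝ) ^ a * (Fintype.card X : ℝ) := fun a b h =>
    mul_le_mul_of_nonneg_right (pow_le_pow_of_le_one (by norm_num) (by norm_num) h) (by positivity)
  induction s with
  | zero =>
    intro E m T hT hE ht
    have h0 : ∀ z : Fin (0 + 1) → X, (fun _ => z 0) = z :=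
      fun z => funext fun i => congrArg z (Fin.ext (by omega))
    have h1 : T.card ≤ (univ.filter fun x : X => E fun _ => x).card := by
      refine card_le_card_of_injOn (fun z => z 0) (fun z hz => ?_) fun z _ z' _ h => ?_
      · exact mem_coe.2 (mem_filter.2 ⟨mem_univ _, by rw [h0]; exact hT z hz⟩)
      · rw [← h0 z, ← h0 z']
        exact funext fun _ => h
    have h2 : (t : ℝ) ≤ ((univ.filter fun x : X => E fun _ => x).card : ℝ) := by
      refine (ht.trans (hmono m _ (by simp))).trans ?_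
      rw [show (Fintype.card X : ℝ) ^ (0 + 1) = Fintype.card X from pow_one _] at hE
      exact hE.trans (by exact_mod_cast h1)
    obtain ⟨D, hD, hDc⟩ := exists_subset_card_eq (Nat.cast_le.mp h2)
    refine ⟨fun _ => D, fun _ => hDc, fun z hz => ?_⟩
    rw [← h0 z]
    exact (mem_filter.1 (hD (hz 0))).2
  | succ s ih =>
    intro E m T hT hE ht
    have hq : (1 / 2 : ℝ) ^ m / 4 = (1 / 2 : ℝ) ^ (m + 2) := by rw [pow_add]; ring
    have hp : 1 ≤ (t + 1) ^ (s + 1) := Nat.one_le_pow _ _ (by omega)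
    have h1 : T.card
        ≤ (univ.filter fun z : X × (Fin (s + 1) → X) => E (Fin.cons z.1 z.2)).card := by
      refine card_le_card_of_injOn (fun z => (z 0, Fin.tail z)) (fun z hz => ?_)
        fun z _ z' _ h => ?_
      · exact mem_coe.2 (mem_filter.2 ⟨mem_univ _, by rw [Fin.cons_self_tail]; exact hT z hz⟩)
      · rw [← Fin.cons_self_tail z, ← Fin.cons_self_tail z']
        simp only [Prod.mk.injEq] at h
        rw [h.1, h.2]
    obtain ⟨A0, hA0, h2⟩ := step (X := X) (Y := Fin (s + 1) → X) (fun a y => E (Fin.cons a y))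
      ((1 / 2 : ℝ) ^ m) (by positivity) (pow_le_one₀ (by norm_num) (by norm_num))
      (by
        rw [Fintype.card_fun, Fintype.card_fin]
        push_cast
        rw [← pow_succ']
        exact hE.trans (by exact_mod_cast h1)) t
      (by rw [hq]; exact ht.trans (hmono _ _ (by nlinarith)))
    rw [hq, ← pow_mul, Fintype.card_fun, Fintype.card_fin] at h2
    push_cast at h2
    obtain ⟨A, hA, h3⟩ := ih (fun y => ∀ a ∈ A0, E (Fin.cons a y)) ((m + 2) * (t + 1)) _
      (fun z hz => (mem_filter.1 hz).2) h2 (ht.trans (hmono _ _ (by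
        rw [pow_succ', ← mul_assoc]
        exact Nat.mul_le_mul_right _ (by nlinarith))))
    refine ⟨Fin.cons A0 A, fun i => ?_, fun z hz => ?_⟩
    · refine Fin.cases ?_ (fun i => ?_) i
      · exact hA0
      · exact hA i
    · rw [← Fin.cons_self_tail z]
      exact h3 (Fin.tail z) (fun i => hz i.succ) (z 0) (hz 0)

/-- If every `k`-set contains a marked `r`-set, there are many marked `r`-sets. -/
lemma many_edgesN (n k r : ℕ) (hk : r ≤ k) (hkn : k ≤ n) (B : Finset (Finset (Fin n)))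
    (hB : ∀ e ∈ B, e.card = r) (h : ∀ S : Finset (Fin n), S.card = k → ∃ e ∈ B, e ⊆ S) :
    n.choose r ≤ B.card * k.choose r := by
  have hsub : (univ : Finset (Fin n)).powersetCard k ⊆
      B.biUnion (fun e => ((univ : Finset (Fin n)).powersetCard k).filter (e ⊆ ·)) := by
    intro S hS
    obtain ⟨e, he, heS⟩ := h S (mem_powersetCard.mp hS).2
    simp only [mem_biUnion, mem_filter]
    exact ⟨e, he, hS, heS⟩
  have h1 := (card_le_card hsub).trans (card_biUnion_le_card_mul B _ ((n - r).choose (k - r)) (by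
    intro e he
    have := card_filter_powersetCard_subset e univ k (subset_univ _) (by rw [hB e he]; exact hk)
    rw [card_univ, Fintype.card_fin, hB e he] at this
    exact le_of_eq (by rw [← this])))
  rw [card_powersetCard, card_univ, Fintype.card_fin] at h1
  have h2 := Nat.choose_mul (n := n) hk
  have h3 : 0 < (n - r).choose (k - r) := Nat.choose_pos (by omega)
  apply Nat.le_of_mul_le_mul_right _ h3
  calc n.choose r * (n - r).choose (k - r) = n.choose k * k.choose r := h2.symm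
    _ ≤ (B.card * (n - r).choose (k - r)) * k.choose r := Nat.mul_le_mul_right _ h1
    _ = _ := by ring

/-- A complete multipartite configuration has large minimum degree. -/
lemma min_degree {n s t : ℕ} (ht : 1 ≤ t) (P : Finset (Fin n) → Prop)
    (A : Fin (s + 1) → Finset (Fin n)) (hA : ∀ i, (A i).card = t)
    (h : ∀ z : Fin (s + 1) → Fin n, (∀ i, z i ∈ A i) → Function.Injective z ∧ P (univ.image z)) :
    ∃ S : Finset (Fin n), t ≤ S.card ∧ S.card ≤ (s + 1) * t ∧ ∀ v ∈ S,
      t ^ s ≤ ((S.powersetCard (s + 1)).filter fun e => v ∈ e ∧ P e).card := by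
  have hne : ∀ i, ∃ x, x ∈ A i := fun i => card_pos.1 (by rw [hA]; omega)
  choose z0 hz0 using hne
  have hdj : ∀ i l x, x ∈ A i → x ∈ A l → i = l := by
    intro i l x hi hl
    refine (h (fun a => if x ∈ A a then x else z0 a) fun a => ?_).1 ?_
    · split_ifs with ha
      · exact ha
      · exact hz0 a
    · simp only [if_pos hi, if_pos hl]
  refine ⟨univ.biUnion A, ?_, ?_, fun v hv => ?_⟩
  · rw [← hA 0]
    exact card_le_card (subset_biUnion_of_mem A (mem_univ 0))
  · refine (card_biUnion_le_card_mul _ _ t fun i _ => (hA i).le).trans ?_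
    rw [card_univ, Fintype.card_fin]
  · obtain ⟨i0, -, hv⟩ := mem_biUnion.1 hv
    have hc : (Fintype.piFinset fun a : Fin s => A (i0.succAbove a)).card = t ^ s := by
      rw [Fintype.card_piFinset]
      simp [hA]
    have hz : ∀ y ∈ Fintype.piFinset fun a : Fin s => A (i0.succAbove a), ∀ i,
        (i0.insertNth v y : Fin (s + 1) → Fin n) i ∈ A i := by
      intro y hy i
      refine i0.succAboveCases ?_ (fun a => ?_) i
      · simpa using hv
      · simpa using Fintype.mem_piFinset.1 hy a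
    rw [← hc]
    refine card_le_card_of_injOn (fun y => univ.image (i0.insertNth v y : Fin (s + 1) → Fin n))
      (fun y hy => ?_) fun y hy y' hy' e => ?_
    · obtain ⟨h1, h2⟩ := h _ (hz y hy)
      refine mem_coe.2 (mem_filter.2 ⟨mem_powersetCard.2 ⟨fun x hx => ?_, ?_⟩, ?_, h2⟩)
      · obtain ⟨i, -, rfl⟩ := mem_image.1 hx
        exact mem_biUnion.2 ⟨i, mem_univ _, hz y hy i⟩
      · rw [card_image_of_injective _ h1, card_univ, Fintype.card_fin]
      · exact mem_image.2 ⟨i0, mem_univ _, by simp⟩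
    · funext a
      have h1 : y a ∈ univ.image (i0.insertNth v y' : Fin (s + 1) → Fin n) := by
        have e' : univ.image (i0.insertNth v y : Fin (s + 1) → Fin n)
          = univ.image (i0.insertNth v y' : Fin (s + 1) → Fin n) := e
        rw [← e']
        exact mem_image.2 ⟨i0.succAbove a, mem_univ _, by simp⟩
      obtain ⟨l, -, hl⟩ := mem_image.1 h1
      have h2 : l = i0.succAbove a :=
        hdj _ _ (y a) (hl ▸ hz y' hy' l) (Fintype.mem_piFinset.1 hy a)
      rw [← hl, h2]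
      simp

/-- Either a `k`-set all of whose edges have colour `j0`, or a set with at least `k` and at most
`(s + 1) k` vertices with minimum degree `k ^ s` in another colour. -/
lemma dichotomyN {n s q k L : ℕ} (hk : 1 ≤ k) (hL : k ≤ 2 ^ L)
    (hn : 2 ^ (((s + 1) * (L + 1) + q + 4) * (k + 1) ^ s + L) ≤ n) (φ : Finset (Fin n) → Fin q)
    (j0 : Fin q) :
    (∃ S : Finset (Fin n), S.card = k ∧ ∀ e ∈ S.powersetCard (s + 1), φ e = j0) ∨
    ∃ (S : Finset (Fin n)) (j : Fin q), j ≠ j0 ∧ k ≤ S.card ∧ S.card ≤ (s + 1) * k ∧ ∀ v ∈ S,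
      k ^ s ≤ ((S.powersetCard (s + 1)).filter fun e => v ∈ e ∧ φ e = j).card := by
  by_cases hS : ∃ S : Finset (Fin n), S.card = k ∧ ∀ e ∈ S.powersetCard (s + 1), φ e = j0
  · exact Or.inl hS
  right
  push Not at hS
  set m := (s + 1) * (L + 1) + q with hm
  have hp : 1 ≤ (k + 1) ^ s := Nat.one_le_pow _ _ (by omega)
  have hn1 : 2 ^ (s + 2 + L) ≤ n :=
    (Nat.pow_le_pow_right (by norm_num) (by nlinarith [Nat.zero_le (s * L)])).trans hn
  have h2s : s + 1 ≤ 2 ^ (s + 1) := Nat.lt_two_pow_self.le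
  have h2L : 1 ≤ 2 ^ L := Nat.one_le_two_pow
  have e0 : 2 ^ (s + 2 + L) = 2 * (2 ^ (s + 1) * 2 ^ L) := by ring
  have hkn : k ≤ n := by nlinarith
  have hsn : 2 * (s + 1) ≤ n := by nlinarith
  let B : Finset (Finset (Fin n)) := (univ.powersetCard (s + 1)).filter fun e => φ e ≠ j0
  have hB : ∀ e ∈ B, e.card = s + 1 := fun e he => (mem_powersetCard.1 (mem_filter.1 he).1).2
  have hex : ∀ S : Finset (Fin n), S.card = k → ∃ e ∈ B, e ⊆ S := fun S hSk => by
    obtain ⟨e, he, hne⟩ := hS S hSk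
    exact ⟨e, mem_filter.2 ⟨mem_powersetCard.2 ⟨subset_univ _, (mem_powersetCard.1 he).2⟩, hne⟩,
      (mem_powersetCard.1 he).1⟩
  obtain ⟨S0, -, hS0⟩ := exists_subset_card_eq (s := (univ : Finset (Fin n))) (n := k)
    (by rwa [card_univ, Fintype.card_fin])
  obtain ⟨e0', he0, he0S⟩ := hex S0 hS0
  have hrk : s + 1 ≤ k := by rw [← hB _ he0, ← hS0]; exact card_le_card he0S
  have h1 := many_edgesN n k (s + 1) hrk hkn B hB hex
  obtain ⟨j, hj, hmax⟩ := exists_max_image (univ.erase j0)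
    (fun j => (B.filter fun e => φ e = j).card)
    ⟨φ e0', mem_erase.2 ⟨(mem_filter.1 he0).2, mem_univ _⟩⟩
  have h2 : B.card ≤ q * (B.filter fun e => φ e = j).card := by
    rw [card_eq_sum_card_fiberwise (f := φ) (t := univ.erase j0)
      fun e he => mem_coe.2 (mem_erase.2 ⟨(mem_filter.1 (mem_coe.1 he)).2, mem_univ _⟩)]
    refine (sum_le_card_nsmul _ _ _ hmax).trans ?_
    rw [smul_eq_mul]
    refine Nat.mul_le_mul_right _ ((card_le_univ _).trans (Fintype.card_fin q).le)
  let E : (Fin (s + 1) → Fin n) → Prop := fun z => Function.Injective z ∧ φ (univ.image z) = j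
  have h3 : (B.filter fun e => φ e = j).card ≤ (univ.filter E).card := by
    refine card_le_card_of_surjOn (fun z => univ.image z) fun e he => ?_
    obtain ⟨he1, he2⟩ := mem_filter.1 (mem_coe.1 he)
    have hi : univ.image (e.orderEmbOfFin (hB e he1)) = e := by
      rw [← coe_inj, coe_image, coe_univ, Set.image_univ, range_orderEmbOfFin]
    exact ⟨e.orderEmbOfFin (hB e he1), mem_coe.2 (mem_filter.2 ⟨mem_univ _,
      (e.orderEmbOfFin (hB e he1)).injective, by rw [hi, he2]⟩), hi⟩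
  set N := (univ.filter E).card with hN
  have h4 : (n.choose (s + 1) : ℝ) ≤ q * N * (k.choose (s + 1) : ℝ) := by
    exact_mod_cast h1.trans (Nat.mul_le_mul_right _ (h2.trans (Nat.mul_le_mul_left _ h3)))
  have h5 : ((n + 1 - (s + 1) : ℕ) : ℝ) ^ (s + 1) / ((s + 1).factorial : ℝ)
      ≤ (n.choose (s + 1) : ℝ) := Nat.pow_le_choose _ n
  have h6 : (k.choose (s + 1) : ℝ) ≤ (k : ℝ) ^ (s + 1) / ((s + 1).factorial : ℝ) :=
    Nat.choose_le_pow_div _ k
  have h7 : (n : ℝ) / 2 ≤ ((n + 1 - (s + 1) : ℕ) : ℝ) := by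
    have : n ≤ 2 * (n + 1 - (s + 1)) := by omega
    have : (n : ℝ) ≤ 2 * ((n + 1 - (s + 1) : ℕ) : ℝ) := by exact_mod_cast this
    linarith
  have hL' : (k : ℝ) ≤ 2 ^ L := by exact_mod_cast hL
  have hq' : (q : ℝ) ≤ 2 ^ q := by exact_mod_cast (Nat.lt_two_pow_self (n := q)).le
  have hf : (0 : ℝ) < ((s + 1).factorial : ℝ) := by positivity
  have h8 : ((n : ℝ) / 2) ^ (s + 1) ≤ 2 ^ q * N * (2 ^ L) ^ (s + 1) := by
    have a2 : ((n + 1 - (s + 1) : ℕ) : ℝ) ^ (s + 1) / ((s + 1).factorial : ℝ) ≤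
        q * N * (k : ℝ) ^ (s + 1) / ((s + 1).factorial : ℝ) := by
      rw [mul_div_assoc]
      exact h5.trans (h4.trans (mul_le_mul_of_nonneg_left h6 (by positivity)))
    calc ((n : ℝ) / 2) ^ (s + 1) ≤ ((n + 1 - (s + 1) : ℕ) : ℝ) ^ (s + 1) :=
          pow_le_pow_left₀ (by positivity) h7 _
      _ ≤ q * N * (k : ℝ) ^ (s + 1) := (div_le_div_iff_of_pos_right hf).mp a2
      _ ≤ _ := mul_le_mul (mul_le_mul_of_nonneg_right hq' (Nat.cast_nonneg _))
          (pow_le_pow_left₀ (Nat.cast_nonneg _) hL' _) (pow_nonneg (Nat.cast_nonneg _) _)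
          (mul_nonneg (pow_nonneg zero_le_two _) (Nat.cast_nonneg _))
  obtain ⟨A, hA, hall⟩ := boxN (X := Fin n) k hk s E m (univ.filter E) (fun z hz => (mem_filter.1 hz).2)
    (by
      rw [Fintype.card_fin]
      have e : (1 / 2 : ℝ) ^ m * (n : ℝ) ^ (s + 1)
          = ((n : ℝ) / 2) ^ (s + 1) / (2 ^ q * (2 ^ L) ^ (s + 1)) := by
        rw [hm, ← pow_mul, one_div, inv_pow, div_pow]
        field_simp
        ring
      rw [e, div_le_iff₀ (mul_pos (pow_pos two_pos _) (pow_pos (pow_pos two_pos _) _))]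
      refine h8.trans (le_of_eq ?_)
      rw [mul_right_comm, mul_comm _ (N : ℝ)])
    (by
      rw [Fintype.card_fin]
      have hn' : (2 : ℝ) ^ ((m + 4) * (k + 1) ^ s + L) ≤ n := by exact_mod_cast hn
      refine le_trans ?_ (mul_le_mul_of_nonneg_left hn' (pow_nonneg one_half_pos.le _))
      rw [pow_add (2 : ℝ), ← mul_assoc, ← mul_pow, one_div_mul_cancel two_ne_zero, one_pow, one_mul]
      exact hL')
  obtain ⟨S, hS1, hS2, hS3⟩ := min_degree hk (fun e => φ e = j) A hA hall
  refine ⟨S, j, (mem_erase.1 hj).1, hS1, hS2, fun v hv => (hS3 v hv).trans (le_of_eq ?_)⟩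
  congr 2

end Pool.Agent.P.MP_312c66_co
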