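import Mathlib
import Pool.Agent.P.MP_312c66_co.Box

set_option autoImplicit false

namespace Pool.Agent.P.MP_312c66_co

open Finset
open scoped Classical

/-- If every `k`-set contains a marked 4-set, there are many marked 4-sets. -/
lemma many_edges (n k : ℕ) (hk : 4 ≤ k) (hkn : k ≤ n) (P : Finset (Fin n) → Prop)
    (h : ∀ S : Finset (Fin n), S.card = k → ∃ e ⊆ S, e.card = 4 ∧ P e) :
    n.choose 4 ≤ (((univ : Finset (Fin n)).powersetCard 4).filter P).card * k.choose 4 := by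
  set B := ((univ : Finset (Fin n)).powersetCard 4).filter P with hB
  have hsub : (univ : Finset (Fin n)).powersetCard k ⊆
      B.biUnion (fun e => ((univ : Finset (Fin n)).powersetCard k).filter (e ⊆ ·)) := by
    intro S hS
    obtain ⟨e, heS, he4, hPe⟩ := h S (mem_powersetCard.mp hS).2
    simp only [mem_biUnion, mem_filter]
    exact ⟨e, mem_filter.mpr ⟨mem_powersetCard.mpr ⟨subset_univ _, he4⟩, hPe⟩, hS, heS⟩
  have h1 := (card_le_card hsub).trans (card_biUnion_le_card_mul B _ ((n - 4).choose (k - 4)) (by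
    intro e he
    have he4 : e.card = 4 := (mem_powersetCard.mp (mem_filter.mp he).1).2
    have := card_filter_powersetCard_subset e univ k (subset_univ _) (by omega)
    rw [card_univ, Fintype.card_fin, he4] at this
    exact le_of_eq (by convert this)))
  rw [card_powersetCard, card_univ, Fintype.card_fin] at h1
  have h2 := Nat.choose_mul (n := n) hk
  have h3 : 0 < (n - 4).choose (k - 4) := Nat.choose_pos (by omega)
  apply Nat.le_of_mul_le_mul_right _ h3
  calc n.choose 4 * (n - 4).choose (k - 4) = n.choose k * k.choose 4 := h2.symm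
    _ ≤ (B.card * (n - 4).choose (k - 4)) * k.choose 4 := Nat.mul_le_mul_right _ h1
    _ = _ := by ring

/-- Ordered quadruples are at least as many as the marked 4-sets. -/
lemma edges_le_tuples (n : ℕ) (P : Finset (Fin n) → Prop) :
    (((univ : Finset (Fin n)).powersetCard 4).filter P).card ≤
      (univ.filter (fun z : Fin n × Fin n × Fin n × Fin n =>
        ({z.1, z.2.1, z.2.2.1, z.2.2.2} : Finset (Fin n)).card = 4 ∧
          P {z.1, z.2.1, z.2.2.1, z.2.2.2})).card := by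
  apply card_le_card_of_surjOn
    (fun z : Fin n × Fin n × Fin n × Fin n => ({z.1, z.2.1, z.2.2.1, z.2.2.2} : Finset (Fin n)))
  intro e he
  simp only [coe_filter, mem_powersetCard, Set.mem_ofPred_eq] at he
  obtain ⟨⟨_, he4⟩, hP⟩ := he
  obtain ⟨a, b, c, d, _, _, _, _, _, _, rfl⟩ := card_eq_four.mp he4
  exact ⟨(a, b, c, d), by simp only [coe_filter, mem_univ, true_and, Set.mem_ofPred_eq]; exact ⟨he4, hP⟩, rfl⟩

lemma four_ne {α : Type} [DecidableEq α] {a b c d : α} (h : ({a, b, c, d} : Finset α).card = 4) :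
    a ≠ b ∧ a ≠ c ∧ a ≠ d ∧ b ≠ c ∧ b ≠ d ∧ c ≠ d := by
  have h3 : ∀ x y z : α, ({x, y, z} : Finset α).card ≤ 3 := fun x y z => card_le_three
  refine ⟨?_, ?_, ?_, ?_, ?_, ?_⟩
  · rintro rfl
    have : ({a, a, c, d} : Finset α) = {a, c, d} := by ext; simp
    have := h3 a c d; simp_all
  · rintro rfl
    have : ({a, b, a, d} : Finset α) = {a, b, d} := by ext; simp; tauto
    have := h3 a b d; simp_all
  · rintro rfl
    have : ({a, b, c, a} : Finset α) = {a, b, c} := by ext; simp; tauto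
    have := h3 a b c; simp_all
  · rintro rfl
    have : ({a, b, b, d} : Finset α) = {a, b, d} := by ext; simp
    have := h3 a b d; simp_all
  · rintro rfl
    have : ({a, b, c, b} : Finset α) = {a, b, c} := by ext; simp; tauto
    have h4 := h3 a b c
    rw [this] at h; omega
  · rintro rfl
    have : ({a, b, c, c} : Finset α) = {a, b, c} := by ext; simp
    have := h3 a b c; simp_all

/-- A complete 4-partite marked configuration gives a set with many marked 4-sets. -/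
lemma dense_set (n t : ℕ) (ht : 0 < t) (P : Finset (Fin n) → Prop) (A B C D : Finset (Fin n))
    (hA : A.card = t) (hB : B.card = t) (hC : C.card = t) (hD : D.card = t)
    (h : ∀ a ∈ A, ∀ b ∈ B, ∀ c ∈ C, ∀ d ∈ D,
      ({a, b, c, d} : Finset (Fin n)).card = 4 ∧ P {a, b, c, d}) :
    ∃ S : Finset (Fin n), t ≤ S.card ∧ S.card ≤ 4 * t ∧
      t ^ 4 ≤ ((S.powersetCard 4).filter P).card := by
  obtain ⟨a0, ha0⟩ : A.Nonempty := card_pos.mp (by omega)
  obtain ⟨b0, hb0⟩ : B.Nonempty := card_pos.mp (by omega)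
  obtain ⟨c0, hc0⟩ : C.Nonempty := card_pos.mp (by omega)
  obtain ⟨d0, hd0⟩ : D.Nonempty := card_pos.mp (by omega)
  have hAB : ∀ x ∈ A, x ∉ B := fun x hx hx' => (four_ne (h x hx x hx' c0 hc0 d0 hd0).1).1 rfl
  have hAC : ∀ x ∈ A, x ∉ C := fun x hx hx' => (four_ne (h x hx b0 hb0 x hx' d0 hd0).1).2.1 rfl
  have hAD : ∀ x ∈ A, x ∉ D := fun x hx hx' => (four_ne (h x hx b0 hb0 c0 hc0 x hx').1).2.2.1 rfl
  have hBC : ∀ x ∈ B, x ∉ C := fun x hx hx' =>
    (four_ne (h a0 ha0 x hx x hx' d0 hd0).1).2.2.2.1 rfl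
  have hBD : ∀ x ∈ B, x ∉ D := fun x hx hx' =>
    (four_ne (h a0 ha0 x hx c0 hc0 x hx').1).2.2.2.2.1 rfl
  have hCD : ∀ x ∈ C, x ∉ D := fun x hx hx' =>
    (four_ne (h a0 ha0 b0 hb0 x hx x hx').1).2.2.2.2.2 rfl
  refine ⟨A ∪ B ∪ C ∪ D, ?_, ?_, ?_⟩
  · rw [← hD]; exact card_le_card subset_union_right
  · have h1 := card_union_le (A ∪ B ∪ C) D
    have h2 := card_union_le (A ∪ B) C
    have h3 := card_union_le A B
    omega
  · have hc : (A ×ˢ B ×ˢ C ×ˢ D).card = t ^ 4 := by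
      simp only [card_product, hA, hB, hC, hD]; ring
    rw [← hc]
    apply card_le_card_of_injOn
      (fun z : Fin n × Fin n × Fin n × Fin n => ({z.1, z.2.1, z.2.2.1, z.2.2.2} : Finset (Fin n)))
    · rintro ⟨a, b, c, d⟩ hz
      simp only [coe_product, Set.mem_prod, mem_coe] at hz
      obtain ⟨ha, hb, hc, hd⟩ := hz
      simp only [coe_filter, mem_powersetCard, Set.mem_ofPred_eq]
      refine ⟨⟨?_, (h a ha b hb c hc d hd).1⟩, (h a ha b hb c hc d hd).2⟩
      intro x hx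
      simp only [mem_insert, mem_singleton] at hx
      simp only [mem_union]
      rcases hx with rfl | rfl | rfl | rfl <;> tauto
    · rintro ⟨a, b, c, d⟩ hz ⟨a', b', c', d'⟩ hz' heq
      simp only [coe_product, Set.mem_prod, mem_coe] at hz hz'
      obtain ⟨ha, hb, hc, hd⟩ := hz
      obtain ⟨ha', hb', hc', hd'⟩ := hz'
      simp only at heq
      have hm : ∀ x, x ∈ ({a, b, c, d} : Finset (Fin n)) → x = a' ∨ x = b' ∨ x = c' ∨ x = d' := by
        intro x hx
        rw [heq] at hx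
        simpa using hx
      have e1 : a = a' := by
        rcases hm a (by simp) with h | h | h | h
        · exact h
        · exact absurd (h ▸ hb') (hAB a ha)
        · exact absurd (h ▸ hc') (hAC a ha)
        · exact absurd (h ▸ hd') (hAD a ha)
      have e2 : b = b' := by
        rcases hm b (by simp) with h | h | h | h
        · exact absurd hb (hAB b (h ▸ ha'))
        · exact h
        · exact absurd (h ▸ hc') (hBC b hb)
        · exact absurd (h ▸ hd') (hBD b hb)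
      have e3 : c = c' := by
        rcases hm c (by simp) with h | h | h | h
        · exact absurd hc (hAC c (h ▸ ha'))
        · exact absurd hc (hBC c (h ▸ hb'))
        · exact h
        · exact absurd (h ▸ hd') (hCD c hc)
      have e4 : d = d' := by
        rcases hm d (by simp) with h | h | h | h
        · exact absurd hd (hAD d (h ▸ ha'))
        · exact absurd hd (hBD d (h ▸ hb'))
        · exact absurd hd (hCD d (h ▸ hc'))
        · exact h
      rw [e1, e2, e3, e4]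

/-- The exponent of the singly exponential upper bound. -/
def expo (k : ℕ) : ℕ := (((4 * k + 4 + 2) * (k + 1) + 2) * (k + 1) + 2) * (k + 1) + k + 3

/-- Either a `k`-set with no marked 4-set, or a set of size between `k` and `4k` with `k^4`
marked 4-sets. -/
lemma dichotomy (k : ℕ) (hk : 4 ≤ k) (n : ℕ) (hn : n = 2 ^ expo k) (P : Finset (Fin n) → Prop) :
    (∃ S : Finset (Fin n), S.card = k ∧ ∀ e ⊆ S, e.card = 4 → ¬ P e) ∨
    ∃ S : Finset (Fin n), k ≤ S.card ∧ S.card ≤ 4 * k ∧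
      k ^ 4 ≤ ((S.powersetCard 4).filter P).card := by
  by_cases hS : ∃ S : Finset (Fin n), S.card = k ∧ ∀ e ⊆ S, e.card = 4 → ¬ P e
  · exact Or.inl hS
  right
  have hk2 : k < 2 ^ k := Nat.lt_two_pow_self
  have hexp : k + 3 ≤ expo k := by unfold expo; omega
  have hn8 : 2 ^ (k + 3) ≤ n := hn ▸ Nat.pow_le_pow_right (by norm_num) hexp
  have hkn : 8 * k ≤ n := by
    have : 2 ^ (k + 3) = 8 * 2 ^ k := by ring
    omega
  have h1 := many_edges n k hk (by omega) P (by
    intro S hSk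
    by_contra hcon
    apply hS
    refine ⟨S, hSk, fun e he h4 hP => hcon ⟨e, he, h4, hP⟩⟩)
  have h2 := edges_le_tuples n P
  set N := (univ.filter (fun z : Fin n × Fin n × Fin n × Fin n =>
        ({z.1, z.2.1, z.2.2.1, z.2.2.2} : Finset (Fin n)).card = 4 ∧
          P {z.1, z.2.1, z.2.2.1, z.2.2.2})).card with hN
  have h3 : (n.choose 4 : ℝ) ≤ (N : ℝ) * (k.choose 4 : ℝ) := by
    exact_mod_cast h1.trans (Nat.mul_le_mul_right _ h2)
  have h4 : ((n + 1 - 4 : ℕ) : ℝ) ^ 4 / (Nat.factorial 4 : ℝ) ≤ (n.choose 4 : ℝ) :=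
    Nat.pow_le_choose 4 n
  have h5 : (k.choose 4 : ℝ) ≤ (k : ℝ) ^ 4 / (Nat.factorial 4 : ℝ) := Nat.choose_le_pow_div 4 k
  have h6 : (n : ℝ) / 2 ≤ ((n + 1 - 4 : ℕ) : ℝ) := by
    have : n ≤ 2 * (n + 1 - 4) := by omega
    have : (n : ℝ) ≤ 2 * ((n + 1 - 4 : ℕ) : ℝ) := by exact_mod_cast this
    linarith
  have h7 : (k : ℝ) ≤ 2 ^ k := by exact_mod_cast hk2.le
  have hf : (0 : ℝ) < (Nat.factorial 4 : ℝ) := by positivity
  have h8 : ((n : ℝ) / 2) ^ 4 ≤ (N : ℝ) * (2 ^ k) ^ 4 := by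
    have a1 : ((n : ℝ) / 2) ^ 4 ≤ ((n + 1 - 4 : ℕ) : ℝ) ^ 4 := by gcongr
    have a2 : ((n + 1 - 4 : ℕ) : ℝ) ^ 4 / (Nat.factorial 4 : ℝ) ≤
        (N : ℝ) * (k : ℝ) ^ 4 / (Nat.factorial 4 : ℝ) := by
      calc _ ≤ (N : ℝ) * (k.choose 4 : ℝ) := h4.trans h3
        _ ≤ (N : ℝ) * ((k : ℝ) ^ 4 / (Nat.factorial 4 : ℝ)) := by gcongr
        _ = _ := by ring
    have a3 := (div_le_div_iff_of_pos_right hf).mp a2
    calc _ ≤ (N : ℝ) * (k : ℝ) ^ 4 := a1.trans a3
      _ ≤ _ := by gcongr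
  obtain ⟨A, B, C, D, hA, hB, hC, hD, hall⟩ := box (X := Fin n)
    (fun a b c d => ({a, b, c, d} : Finset (Fin n)).card = 4 ∧ P {a, b, c, d}) k (4 * k + 4)
    (by
      rw [Fintype.card_fin]
      have e : (1 / 2 : ℝ) ^ (4 * k + 4) * (n : ℝ) ^ 4 = ((n : ℝ) / 2) ^ 4 / (2 ^ k) ^ 4 := by
        rw [← pow_mul, pow_add, mul_comm k 4, one_div, inv_pow]
        field_simp
      rw [e, div_le_iff₀ (by positivity)]
      refine h8.trans (le_of_eq ?_)
      rw [hN]
      congr!)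
    (by
      rw [Fintype.card_fin, hn]
      unfold expo
      push_cast
      rw [add_assoc _ k 3, pow_add (2 : ℝ) _ (k + 3), ← mul_assoc, ← mul_pow]
      norm_num
      calc (k : ℝ) ≤ 2 ^ k := h7
        _ ≤ 2 ^ (k + 3) := pow_le_pow_right₀ (by norm_num) (by omega))
  exact dense_set n k (by omega) P A B C D hA hB hC hD hall

lemma expo_le (k : ℕ) (hk : 4 ≤ k) : expo k ≤ 20 * k ^ 4 := by
  unfold expo
  obtain ⟨j, rfl⟩ := Nat.exists_eq_add_of_le hk
  nlinarith [Nat.zero_le j, Nat.zero_le (j ^ 2), Nat.zero_le (j ^ 3), Nat.zero_le (j ^ 4)]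

/-- The bound `2 ^ expo k` is eventually below any double exponential. -/
lemma growth (D c : ℝ) (hD : 0 < D) (hc : 0 < c) (K : ℕ) :
    ∃ k : ℕ, K ≤ k ∧ 4 ≤ k ∧
      ((2 ^ expo k : ℕ) : ℝ) < Real.exp (Real.exp (c * (k : ℝ) ^ D)) := by
  obtain ⟨j, hj⟩ := exists_nat_ge (5 / D)
  obtain ⟨M, hM⟩ := exists_nat_gt (20 * (Nat.factorial j : ℝ) / c ^ j)
  refine ⟨max (max K 4) M, le_max_of_le_left (le_max_left _ _),
    le_max_of_le_left (le_max_right _ _), ?_⟩
  set k := max (max K 4) M with hk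
  have hk4 : 4 ≤ k := le_max_of_le_left (le_max_right _ _)
  have hkM : (M : ℝ) ≤ k := by exact_mod_cast le_max_right _ _
  have hk1 : (1 : ℝ) ≤ k := by exact_mod_cast (by omega : 1 ≤ k)
  have h1 : ((2 ^ expo k : ℕ) : ℝ) ≤ Real.exp (expo k) := by
    push_cast
    rw [← Real.exp_one_pow]
    have : (2 : ℝ) ≤ Real.exp 1 := by
      have := Real.add_one_le_exp (1 : ℝ)
      linarith
    gcongr
  refine h1.trans_lt (Real.exp_lt_exp.mpr ?_)
  have h2 : (expo k : ℝ) ≤ 20 * (k : ℝ) ^ 4 := by exact_mod_cast expo_le k hk4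
  have h3 := Real.pow_div_factorial_le_exp (c * (k : ℝ) ^ D) (by positivity) j
  refine h2.trans_lt (lt_of_lt_of_le ?_ h3)
  have hf : (0 : ℝ) < (Nat.factorial j : ℝ) := by positivity
  have hcj : 0 < c ^ j := by positivity
  have h4 : (k : ℝ) ^ 5 ≤ ((k : ℝ) ^ D) ^ j := by
    rw [← Real.rpow_natCast ((k : ℝ) ^ D) j, ← Real.rpow_mul (by positivity),
      ← Real.rpow_natCast (k : ℝ) 5]
    apply Real.rpow_le_rpow_of_exponent_le hk1
    rw [div_le_iff₀ hD] at hj
    push_cast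
    linarith
  rw [mul_pow, lt_div_iff₀ hf]
  have h5 : 20 * (Nat.factorial j : ℝ) < c ^ j * k := by
    have := hM.trans_le hkM
    rw [div_lt_iff₀ hcj] at this
    linarith
  have hk4' : (0 : ℝ) < (k : ℝ) ^ 4 := by positivity
  calc 20 * (k : ℝ) ^ 4 * (Nat.factorial j : ℝ) = (20 * (Nat.factorial j : ℝ)) * (k : ℝ) ^ 4 := by
        ring
    _ < (c ^ j * k) * (k : ℝ) ^ 4 := by gcongr
    _ = c ^ j * (k : ℝ) ^ 5 := by ring
    _ ≤ _ := by gcongr

end Pool.Agent.P.MP_312c66_co
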